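import Pool.Agent.T2H95.MS.Model

/-!
# The weak completeness theorem for `S4.2` is provable in `RCA₀`

We work in an arbitrary model of `RCA₀` (Henkin semantics, of any cardinality); by the completeness theorem, what holds in all
these models is provable in `RCA₀`. Modal formulas are coded by the numbers of the model: `0` is `⊥`, `4 i + 1` is the variable
`p_i`, `4 i + 2` is the constant `c_i`, `4 a + 3` is `□ a` and `4 ⟨a, b⟩ + 4` is `a → b`, with Cantor's bijective pairing
`⟨a, b⟩ = (a + b) (a + b + 1) / 2 + a`; so every number is the code of exactly one formula (`unique_readability`).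
A proof in `S4.2` is a finite sequence (coded by a number of the model) of formulas, each of which is one of the seven axioms (three
propositional axioms, `K`, `T`, `4`, `.2`, in the variables `p_0, p_1, p_2`) or follows from earlier ones by modus ponens, necessitation
or uniform substitution.

**Theorem.** In every model of `RCA₀`: if `¬ φ` is not provable in `S4.2` then `φ` has a weak Kripke model on an `S4.2`-frame
(reflexive, transitive, directed) with a point at which `φ` is true. Moreover the set of worlds is finite in the sense of the model and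
there is a world that is accessible from all worlds. So `RCA₀` proves the weak completeness theorem for `S4.2`.

Proof. Let `n = φ + 1`; all formulas `< n` are used instead of the subformulas of `φ`. In `S4.2`, `¬ □ ¬ □ ψ → □ ¬ □ ¬ □ ψ`, so
(Lindenbaum's lemma for finitely many formulas, by `Π⁰₁` induction) there is a set `e ⊆ [0, n)` such that `φ` is consistent with
the theory `T` of all `□ ¬ □ ψ`, `ψ ∈ e`, and `□ ¬ □ ¬ □ ψ`, `ψ ∉ e`. The worlds are (the codes of) the subsets `c` of `[0, n)` such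
that `c`, the negations of the other formulas `< n` and `T` are consistent; they form a set by bounded `Σ⁰₁` comprehension, as the
codes are below a common bound. The world `d` is accessible from `c` if `□ ψ ∈ c` implies `□ ψ ∈ d`. All formulas in `T`
begin with `□`, so the usual argument for `S4` gives the truth lemma. Finally `T` is consistent with all `□ ψ`, `ψ ∉ e` (by
`Π⁰₁` induction on the number of these formulas: otherwise `T` and the previous ones imply `¬ □ ψ`, and being boxed they imply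
`□ ¬ □ ψ`, but `T` contains `□ ¬ □ ¬ □ ψ`), and a world that contains them is accessible from all worlds, as `□ ψ ∈ c`
implies `ψ ∉ e`.
-/

set_option autoImplicit false

open Pool.Agent.Helper617.RM

namespace Pool.Agent.Results.MP_d63900_lc.WeakCompletenessS42

universe u

section defs

variable {N : L2Structure.{u}} [IsModelRCA0 N]

/-- the propositional variable `p_i` -/
noncomputable def pvar (i : N.M) : N.M := 4 * i + 1

/-- the propositional constant `c_i` -/
noncomputable def pcst (i : N.M) : N.M := 4 * i + 2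

/-- the formula `□ a` -/
noncomputable def box (a : N.M) : N.M := 4 * a + 3

/-- the formula `a → b`; this number is `4 ⟨a, b⟩ + 4`, where `⟨a, b⟩ = (a + b) (a + b + 1) / 2 + a` -/
noncomputable def imp (a b : N.M) : N.M := 2 * ((a + b) * (a + b + 1)) + 4 * a + 4

/-- `¬ a` is `a → ⊥`; the number `0` is the code of `⊥` -/
noncomputable def neg (a : N.M) : N.M := imp a 0

/-- `◇ a` is `¬ □ ¬ a` -/
noncomputable def dia (a : N.M) : N.M := neg (box (neg a))

/-- the axioms: three propositional axioms, `K`, `T`, `4` and `.2` -/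
def IsAxiom (x : N.M) : Prop :=
  x = imp (pvar 0) (imp (pvar 1) (pvar 0)) ∨
  x = imp (imp (pvar 0) (imp (pvar 1) (pvar 2))) (imp (imp (pvar 0) (pvar 1)) (imp (pvar 0) (pvar 2))) ∨
  x = imp (imp (neg (pvar 0)) (neg (pvar 1))) (imp (pvar 1) (pvar 0)) ∨
  x = imp (box (imp (pvar 0) (pvar 1))) (imp (box (pvar 0)) (box (pvar 1))) ∨
  x = imp (box (pvar 0)) (pvar 0) ∨
  x = imp (box (pvar 0)) (box (box (pvar 0))) ∨
  x = imp (dia (box (pvar 0))) (box (dia (pvar 0)))

/-- `b` is obtained from `a` by a uniform substitution `g` (a finite sequence of the model which gives the results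
`g x` of the substitution in all formulas `x ≤ a`; it is arbitrary at the variables and commutes with `⊥`, the constants,
`□` and `→`) -/
def IsInstance (a b : N.M) : Prop :=
  ∃ (u : N.M) (g : N.M → N.M), IsSeq N u (a + 1) g ∧ g 0 = 0 ∧ (∀ i, pcst i ≤ a → g (pcst i) = pcst i) ∧
    (∀ x, box x ≤ a → g (box x) = box (g x)) ∧ (∀ x y, imp x y ≤ a → g (imp x y) = imp (g x) (g y)) ∧ b = g a

/-- `u` is the code of a proof in `S4.2`, that is the finite sequence `f 0, …, f (n - 1)` -/
def IsProof (u n : N.M) (f : N.M → N.M) : Prop :=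
  IsSeq N u n f ∧ ∀ i, i < n → IsAxiom (f i) ∨ (∃ j k, j < i ∧ k < i ∧ f j = imp (f k) (f i)) ∨
    (∃ j, j < i ∧ f i = box (f j)) ∨ ∃ j, j < i ∧ IsInstance (f j) (f i)

/-- `x` is provable in `S4.2` -/
def Provable (x : N.M) : Prop := ∃ (u n : N.M) (f : N.M → N.M), IsProof u n f ∧ ∃ i, i < n ∧ f i = x

/-- `ψ` is a subformula of `φ` -/
def IsSub (φ ψ : N.M) : Prop :=
  ∀ S ∈ N.Sets, φ ∈ S → (∀ x, box x ∈ S → x ∈ S) → (∀ x y, imp x y ∈ S → x ∈ S ∧ y ∈ S) → ψ ∈ S

/-- `(W, R, V)` is a weak Kripke model of `φ`; `W`, `R`, `V` exist in the structure, and `V w ψ` says that the value of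
`ψ` at `w` is `1` -/
structure IsWeakModel (φ : N.M) (W : Set N.M) (R V : N.M → N.M → Prop) : Prop where
  worlds : W ∈ N.Sets
  nonempty : W.Nonempty
  rel : RelIn N R
  rel_mem : ∀ x y, R x y → x ∈ W ∧ y ∈ W
  val : RelIn N V
  bot : ∀ w ∈ W, IsSub φ 0 → ¬ V w 0
  imp : ∀ w ∈ W, ∀ ψ θ, IsSub φ (imp ψ θ) → (V w (imp ψ θ) ↔ (V w ψ → V w θ))
  box : ∀ w ∈ W, ∀ ψ, IsSub φ (box ψ) → (V w (box ψ) ↔ ∀ v, R w v → V v ψ)

/-- `(W, R)` is an `S4.2`-frame: reflexive, transitive and directed -/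
structure IsS42Frame (W : Set N.M) (R : N.M → N.M → Prop) : Prop where
  refl : ∀ w ∈ W, R w w
  trans : ∀ w u v, R w u → R u v → R w v
  directed : ∀ w u v, R w u → R w v → ∃ s, R u s ∧ R v s

end defs

/-- The weak completeness theorem for `S4.2`, in the model `N` of `RCA₀`. -/
def WeakCompleteness (N : L2Structure.{u}) [IsModelRCA0 N] : Prop :=
  ∀ φ : N.M, ¬ Provable (neg φ) → ∃ (W : Set N.M) (R V : N.M → N.M → Prop),
    IsWeakModel φ W R V ∧ IsS42Frame W R ∧ ∃ w ∈ W, V w φ

/-- The same with a finite set of worlds and a world that is accessible from all worlds. -/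
def FiniteWeakCompleteness (N : L2Structure.{u}) [IsModelRCA0 N] : Prop :=
  ∀ φ : N.M, ¬ Provable (neg φ) → ∃ (W : Set N.M) (R V : N.M → N.M → Prop),
    IsWeakModel φ W R V ∧ IsS42Frame W R ∧ (∃ w ∈ W, V w φ) ∧ (∃ b, ∀ w ∈ W, w < b) ∧ ∃ s ∈ W, ∀ w ∈ W, R w s

section proofs

variable {N : L2Structure.{u}} [IsModelRCA0 N]

/-- every number is the code of exactly one formula -/
theorem unique_readability (x : N.M) :
    (x = 0 ∨ (∃ i, x = pvar i) ∨ (∃ i, x = pcst i) ∨ (∃ a, x = box a) ∨ ∃ a b, x = imp a b) ∧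
    (∀ i k : N.M, (pvar i = pvar k → i = k) ∧ (pcst i = pcst k → i = k) ∧ (box i = box k → i = k) ∧
      pvar i ≠ pcst k ∧ pvar i ≠ box k ∧ pcst i ≠ box k ∧ pvar i ≠ 0 ∧ pcst i ≠ 0 ∧ box i ≠ 0) ∧
    ∀ a b c d : N.M, (imp a b = imp c d → a = c ∧ b = d) ∧ pvar a ≠ imp b c ∧ pcst a ≠ imp b c ∧ box a ≠ imp b c ∧
      imp a b ≠ 0 := by
  have pz : ∀ (i m : N.M), 4 * i + (m + 1) ≠ 0 := fun i m h => by
    have h1 : (0 : N.M) < 4 * i + (m + 1) := by
      rw [lt_iff_add'']
      exact ⟨4 * i + m, by ring⟩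
    exact absurd h h1.ne'
  refine ⟨T2H95.MS.readable x, fun i k => ⟨T2H95.MS.pvar_inj, T2H95.MS.pcst_inj, T2H95.MS.box_inj,
    T2H95.MS.pvar_ne_pcst i k, T2H95.MS.pvar_ne_box i k, T2H95.MS.pcst_ne_box i k, fun h => ?_, fun h => ?_,
    T2H95.MS.box_ne_zero i⟩, fun a b c d => ⟨T2H95.MS.imp_inj, T2H95.MS.pvar_ne_imp a b c,
    T2H95.MS.pcst_ne_imp a b c, T2H95.MS.box_ne_imp a b c, T2H95.MS.imp_ne_zero a b⟩⟩
  · refine pz i 0 ?_
    rw [zero_add]
    exact h
  · refine pz i 1 ?_
    rw [one_add_one_eq_two]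
    exact h

theorem inst_of_inC {a b : N.M} (h : T2H95.MS.InC a b) : IsInstance a b := by
  obtain ⟨s, hs, ⟨h1, h2, h3, h4⟩, hb⟩ := h
  obtain ⟨g, hg⟩ := hasLen_iff.2 hs
  obtain ⟨_, hg2⟩ := isSeq_iff.1 hg
  have lt : ∀ {x : N.M}, x ≤ a → x < a + 1 := fun h => lt_add_one_iff'.2 h
  refine ⟨s, g, hg, ?_, fun i hi => ?_, fun x hx => ?_, fun x y hxy => ?_, ?_⟩
  · have m := hg2 0 (lt (zero_le' a))
    exact h1 _ m.snd_lt m
  · have m := hg2 (pcst i) (lt hi)
    refine h2 i (lt_of_le_of_lt ?_ m.fst_lt) _ m.snd_lt m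
    unfold pcst
    rw [le_iff_add']
    exact ⟨3 * i + 2, by ring⟩
  · have m := hg2 (box x) (lt hx)
    have m' := hg2 x (lt ((le_of_lt (T2H95.MS.lt_box x)).trans hx))
    exact h3 x m'.fst_lt _ m'.snd_lt _ m.snd_lt m m'
  · have m := hg2 (imp x y) (lt hxy)
    have m' := hg2 x (lt ((le_of_lt (T2H95.MS.lt_imp_left x y)).trans hxy))
    have m'' := hg2 y (lt ((le_of_lt (T2H95.MS.lt_imp_right x y)).trans hxy))
    exact h4 x m'.fst_lt y m''.fst_lt _ m'.snd_lt _ m''.snd_lt _ m.snd_lt m m' m''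
  · exact hs.fn hb (hg2 a (lt le_rfl))

theorem provable_of_pv {x : N.M} (h : T2H95.MS.Pv x) : Provable x := by
  obtain ⟨u, n, i, ⟨hu, hl⟩, hi⟩ := h
  obtain ⟨f, hf⟩ := hasLen_iff.2 hu
  obtain ⟨_, hf2⟩ := isSeq_iff.1 hf
  refine ⟨u, n, f, ⟨hf, fun j hj => ?_⟩, i, hu.lt hi, hu.fn (hf2 i (hu.lt hi)) hi⟩
  have m := hf2 j hj
  rcases hl j hj (f j) m.snd_lt with h1 | h1 | ⟨k, hk, l, hll, a, _, b, _, ma, mb, hq⟩
  · exact absurd m h1
  · exact Or.inl h1
  · have ea : a = f k := hu.fn ma (hf2 k (hk.trans hj))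
    have eb : b = f l := hu.fn mb (hf2 l (hll.trans hj))
    subst ea
    subst eb
    rcases hq with hq | hq | hq
    · exact Or.inr (Or.inl ⟨k, l, hk, hll, hq⟩)
    · exact Or.inr (Or.inr (Or.inl ⟨k, hk, hq⟩))
    · exact Or.inr (Or.inr (Or.inr ⟨k, hk, inst_of_inC hq⟩))

theorem le_of_isSub {φ ψ : N.M} (h : IsSub φ ψ) : ψ ≤ φ := by
  refine h {x | x ≤ φ} (comp_D0 (P := fun x => x ≤ φ) (D0.le (Tm.var 0) (Tm.const φ))) (le_refl φ) (fun x hx => ?_)
    fun x y hxy => ⟨?_, ?_⟩
  · exact (le_of_lt (T2H95.MS.lt_box x)).trans hx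
  · exact (le_of_lt (T2H95.MS.lt_imp_left x y)).trans hxy
  · exact (le_of_lt (T2H95.MS.lt_imp_right x y)).trans hxy

end proofs

/-- **Theorem.** Every model of `RCA₀` satisfies the weak completeness theorem for `S4.2`, also in the form with finite sets of
worlds and with a world accessible from all worlds. -/
theorem result (N : L2Structure.{u}) [IsModelRCA0 N] : WeakCompleteness N ∧ FiniteWeakCompleteness N := by
  have key : FiniteWeakCompleteness N := by
    intro φ hφ
    obtain ⟨b, W, R, V, h1, h2, h3, h4, h5, h6, h7, ⟨s, hs, hs2⟩, h9, h10, h11, w, hw, hw2⟩ :=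
      T2H95.MS.model φ fun h => hφ (provable_of_pv h)
    refine ⟨W, R, V, ⟨h1, ⟨w, hw⟩, h2, h5, h3, fun x hx _ => h9 x hx, fun x hx ψ θ h => h10 x hx ψ θ (le_of_isSub h),
      fun x hx ψ h => h11 x hx ψ (le_of_isSub h)⟩, ⟨h6, h7, fun x y z hxy hxz => ?_⟩, ⟨w, hw, hw2⟩, ⟨b, h4⟩, s, hs, hs2⟩
    exact ⟨s, hs2 y (h5 x y hxy).2, hs2 z (h5 x z hxz).2⟩
  refine ⟨fun φ hφ => ?_, key⟩
  obtain ⟨W, R, V, h1, h2, h3, -, -⟩ := key φ hφ
  exact ⟨W, R, V, h1, h2, h3⟩

end Pool.Agent.Results.MP_d63900_lc.WeakCompletenessS42
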